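import Pool.Agent.helper53.ORT.Spec

/-!
# Project ort (MP_561ff4_al), row E5: blocks of two
-/

set_option autoImplicit false

namespace Pool.Agent.ORT

open Module Pool.Agent.GS

theorem E5_comm_mem {F V ι : Type} [Field F] [AddCommGroup V] [Module F V] [Fintype ι]
    {B : LinearMap.BilinForm F V} (hB : Sym B) {k : Equiv.Perm V} (hk : k ∈ SpG B) (a : ι → V) :
    k * fl B a * k⁻¹ * fl B a ∈ Om B := by
  have h : k * fl B a * k⁻¹ * (fl B a)⁻¹ ∈ Om B :=
    Subgroup.commutator_mem_commutator hk (fl_mem hB a)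
  rwa [fl_inv] at h

theorem E5_even {F V : Type} [Field F] [AddCommGroup V] [Module F V]
    {B : LinearMap.BilinForm F V} (hB : Sym B) (e1 : E1_stmt) {k y : Equiv.Perm V}
    (hk : k ∈ SpG B) (hy : Bk B y 2) {l : ℕ} {a : Fin l × Fin 2 → V} (ha : Og B a)
    (hn : ∀ i, B (a i) (a i) = 1) :
    Gn B y (2 * l) (fl B a) ∧ Gn B y (2 * l) (k * fl B a * k⁻¹) := by
  refine ⟨e1 B hB y 2 l hy a ha hn, ?_⟩
  rw [fl_conj hk ha]
  refine e1 B hB y 2 l hy _ (ha.mem hk) fun i => ?_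
  rw [hk.2]
  exact hn i

theorem E5 (d1 : D1_stmt) (kh : KH_stmt) (kx : KX_stmt) (e1 : E1_stmt) (e2 : E2_stmt)
    (e3 : E3_stmt) : E5_stmt := by
  intro F V K _ _ _ _ _ _ _ _ _ B hF hB hn k hk r hr hr2 hkr β σ j hD y hy
  have heven : Even (finrank F K) → ∃ h ∈ Om B, Gn B y (2 * finrank F K) h ∧ NS F r h := by
    rintro ⟨l, hl⟩
    have hcard : Fintype.card (Fin l × Fin 2) = finrank F K := by
      rw [Fintype.card_prod, Fintype.card_fin, Fintype.card_fin]
      omega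
    obtain ⟨β', j', u, hD', -, hu⟩ := d1 B hF hB k hk β σ j hD hcard (fun _ => 1)
      (fun _ => one_ne_zero)
    obtain ⟨hOg, hNS⟩ := kh B hF hB k hk r hr hr2 hkr β' σ j' hD' u (fun _ => 1)
      (fun _ => one_ne_zero) hu
    have hnorm : ∀ i, B (j' (u i)) (j' (u i)) = 1 := fun i => by rw [hu, if_pos rfl]
    obtain ⟨g1, g2⟩ := E5_even hB e1 hk hy hOg hnorm
    refine ⟨_, E5_comm_mem hB hk _, ?_, hNS⟩
    have hlin : Lin F (k * fl B (fun i => j' (u i)) * k⁻¹) :=
      ((SpG B).mul_mem ((SpG B).mul_mem hk (fl_mem hB _)) ((SpG B).inv_mem hk)).1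
    have h3 := g2.mul g1 hlin
    have h4 : 2 * l + 2 * l = 2 * finrank F K := by omega
    rw [h4] at h3
    exact h3
  refine ⟨heven, ?_⟩
  rcases Nat.even_or_odd (finrank F K) with hev | ⟨l, hl⟩
  · obtain ⟨h, h1, h2, h3⟩ := heven hev
    exact ⟨h, h1, h2.mono (by omega), h3⟩
  · have hcard : Fintype.card ((Fin l × Fin 2) ⊕ Fin 1) = finrank F K := by
      rw [Fintype.card_sum, Fintype.card_prod, Fintype.card_fin, Fintype.card_fin,
        Fintype.card_fin]
      omega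
    obtain ⟨β', j', u, hD', -, hu⟩ := d1 B hF hB k hk β σ j hD hcard (fun _ => 1)
      (fun _ => one_ne_zero)
    obtain ⟨hOg, hNS⟩ := kh B hF hB k hk r hr hr2 hkr β' σ j' hD' u (fun _ => 1)
      (fun _ => one_ne_zero) hu
    have hnorm : ∀ i, B (j' (u i)) (j' (u i)) = 1 := fun i => by rw [hu, if_pos rfl]
    let A : Fin l × Fin 2 → V := fun i => j' (u (Sum.inl i))
    let R : Fin 1 → V := fun i => j' (u (Sum.inr i))
    have hel : (fun i => j' (u i)) = Sum.elim A R := by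
      funext i
      rcases i with i | i <;> rfl
    have hOg' : Og B (Sum.elim A R) := by rw [← hel]; exact hOg
    obtain ⟨g1, g2⟩ := E5_even hB e1 hk hy hOg'.inl (fun i => hnorm (Sum.inl i))
    obtain ⟨X, hX, hXn, hRX, hkX⟩ := e3 B hF hB 1 1 R (fun i => k (R i)) hOg'.inr (by omega)
    have g3 := e2 B hB y k hk 1 1 hy R X hOg'.inr hX hRX hkX (by
      have h1 : ∏ i, B (R i) (R i) = 1 := Finset.prod_eq_one fun i _ => hnorm (Sum.inr i)
      have h2 : ∏ i, B (X i) (X i) = 1 := Finset.prod_eq_one fun i _ => hXn i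
      rw [h1, h2, one_mul]
      exact ⟨1, (one_mul 1).symm⟩)
    refine ⟨_, E5_comm_mem hB hk _, ?_, hNS⟩
    have hfac : k * fl B (fun i => j' (u i)) * k⁻¹ * fl B (fun i => j' (u i)) =
        (k * fl B A * k⁻¹) * (k * fl B R * k⁻¹ * fl B R) * fl B A := by
      rw [hel]
      have h1 := fl_sum hOg'
      have h2 := fl_comm hOg'
      calc k * fl B (Sum.elim A R) * k⁻¹ * fl B (Sum.elim A R)
          = k * (fl B A * fl B R) * k⁻¹ * (fl B R * fl B A) := by rw [h1, ← h2]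
        _ = _ := by group
    rw [hfac]
    have l1 : Lin F (k * fl B A * k⁻¹) :=
      ((SpG B).mul_mem ((SpG B).mul_mem hk (fl_mem hB _)) ((SpG B).inv_mem hk)).1
    have l2 : Lin F (k * fl B A * k⁻¹ * (k * fl B R * k⁻¹ * fl B R)) :=
      ((SpG B).mul_mem ((SpG B).mul_mem ((SpG B).mul_mem hk (fl_mem hB _)) ((SpG B).inv_mem hk))
        ((SpG B).mul_mem ((SpG B).mul_mem ((SpG B).mul_mem hk (fl_mem hB _)) ((SpG B).inv_mem hk))
          (fl_mem hB _))).1
    have h5 := (g2.mul g3 l1).mul g1 l2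
    exact h5.mono (by omega)

end Pool.Agent.ORT
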